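import Pool.Agent.Results.MP_03e5d0_nt.IteratedPrimeTwistsX49

/-!
# Vanishing central values in the prime twists of the twists of `X_0(49)`: an upper bound for `V_E`

`E_D : y² + x y = x³ - (3 D + 1) / 4 x² - 2 D² x - D³` is the quadratic twist by `D` of `X_0(49)`, for the
squarefree `D ≥ 1` with all prime factors `1` modulo `4` (inert or split in `ℚ(√-7)`, in any number). The
conductor is `49 D²` and the sign of the functional equation is `+1`. So the twist of `E_D` by `χ_p`, `p` an
odd prime, has the sign `χ_p (-49 D²) = +1` if and only if `p` is `1` modulo `4` and does not divide `D`,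
and then `L_f(s, χ_p)`, `f` the newform of `E_D`, is the `L`-function of `E_{D p}` (in the normalisation with
the central point `1`).

`V_E(X)` is the number of the odd primes `p ≤ X` with `χ_p (-N) = ε` and `L_f(1/2, χ_p) = 0`. We prove for
`E = E_D` that

  `limsup V_E(X) / #{p ≤ X : χ_p (-N) = ε} ≤ 1 - β`, `β = (β₁ + β₂) / 2 ≥ 2 ^ -(n + 1)`,

`n` the number of the prime factors of `D` which split in `ℚ(√-7)`. Here `β₁` is the share of the vectors
`v` for which the matrix `A + diag v` over the field with two elements is nonsingular, and `β₂` the share of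
the pairs `(v, d)` for which the matrix `A + diag v` with the border `v` and the corner `d` is nonsingular;
`A` is the matrix of the quadratic symbols between the prime factors of `D` and of the quartic symbols of
`-7`. If no prime factor of `D` splits, `β = 3 / 4`; if one does, `β = 5 / 8` or `3 / 8`.

The proof combines the density theorem for the prime twists in `MP_03e5d0_nt.IteratedPrimeTwistsX49`
(helper687) with the uniqueness of the analytic continuation.

Authors: helper687 (the density), helper150 (this file).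
-/

set_option autoImplicit false

open scoped Classical

namespace Pool.Agent.Results.MP_31f891_nt.PrimeTwistsX49

open Filter Topology Matrix
open Pool.Agent.Results.MP_4a9ea6_nt.TwoPartTwistsX49 (E twist)
open Pool.Agent.Results.MP_03e5d0_nt.IteratedPrimeTwistsX49

/-- `p` is an odd prime and `χ_p (-N) = ε`, where `N = 49 D²` is the conductor of `E_D` and `ε = 1` the sign
of the functional equation; `jacobiSym a p` is the Legendre symbol, as `p` is a prime -/
def SignPlus (D p : ℕ) : Prop := p.Prime ∧ p ≠ 2 ∧ jacobiSym (-(49 * (D : ℤ) ^ 2)) p = 1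

/-- the `L`-function of `E_D` has an entire continuation which is zero at the central point `1` -/
def Vanishes (D : ℕ) : Prop :=
  ∃ Λ : ℂ → ℂ, Differentiable ℂ Λ ∧ (∀ s : ℂ, 2 < s.re → Λ s = (E D).LSeries s) ∧ Λ 1 = 0

/-- `V_E(X)` for `E = E_D`; the twist of `E_D` by `χ_p` is `E_{D p}` -/
noncomputable def V (D X : ℕ) : ℕ :=
  ((Finset.Icc 1 X).filter fun p => SignPlus D p ∧ Vanishes (D * p)).card

/-- the number of the odd primes `p ≤ X` with `χ_p (-N) = ε` -/
noncomputable def total (D X : ℕ) : ℕ := ((Finset.Icc 1 X).filter fun p => SignPlus D p).card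

/-- half the sum of the shares of the `v` and of the `(v, d)` for which the matrices `A + diag v` and
`A + diag v` with the border `v` and the corner `d` are nonsingular -/
noncomputable def beta {n : ℕ} (A : Matrix (Fin n) (Fin n) (ZMod 2)) : ℝ :=
  ((Nat.card {v : Fin n → ZMod 2 // (A + diagonal v).det ≠ 0} : ℝ) / 2 ^ n +
    (Nat.card {x : (Fin n → ZMod 2) × ZMod 2 //
      (bordered (A + diagonal x.1) x.2 x.1).det ≠ 0} : ℝ) / 2 ^ (n + 1)) / 2

section proof

open Pool.Agent.U687.Q2 (cor cor_zero_iff)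

theorem sign_iff {D p : ℕ} : SignPlus D p ↔ p.Prime ∧ p % 4 = 1 ∧ ¬ p ∣ D := by
  unfold SignPlus
  refine and_congr_right fun hp => ?_
  have hF : Fact p.Prime := ⟨hp⟩
  have e : (-(49 * (D : ℤ) ^ 2)) = (-1) * (7 * (D : ℤ)) ^ 2 := by ring
  rw [e, jacobiSym.mul_left, jacobiSym.pow_left]
  constructor
  · rintro ⟨h2, h⟩
    have ho : Odd p := hp.odd_of_ne_two h2
    rw [jacobiSym.at_neg_one ho, ZMod.χ₄_nat_eq_if_mod_four] at h
    have ho' : ¬ p % 2 = 0 := by
      have := Nat.odd_iff.1 ho
      omega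
    rw [if_neg ho'] at h
    constructor
    · by_contra h4
      rw [if_neg h4] at h
      nlinarith [sq_nonneg (jacobiSym (7 * (D : ℤ)) p)]
    · intro hd
      have h0 : jacobiSym (7 * (D : ℤ)) p = 0 := by
        rw [jacobiSym.mul_left]
        have h1 : jacobiSym (D : ℤ) p = 0 := by
          have : NeZero p := ⟨hp.ne_zero⟩
          rw [jacobiSym.eq_zero_iff_not_coprime]
          intro hg
          have h3 : Int.gcd (D : ℤ) (p : ℤ) = Nat.gcd D p := Int.gcd_natCast_natCast D p
          rw [h3, Nat.gcd_eq_right hd] at hg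
          exact hp.one_lt.ne' hg
        rw [h1, mul_zero]
      rw [h0] at h
      norm_num at h
  · rintro ⟨h4, hd⟩
    have h2 : p ≠ 2 := by
      rintro rfl
      norm_num at h4
    refine ⟨h2, ?_⟩
    rw [jacobiSym.at_neg_one (hp.odd_of_ne_two h2), ZMod.χ₄_nat_eq_if_mod_four,
      if_neg (by omega), if_pos h4, one_mul]
    refine jacobiSym.sq_one ?_
    have h7 : ¬ p ∣ 7 * D := by
      intro h
      rcases hp.dvd_mul.1 h with h | h
      · have := (Nat.prime_dvd_prime_iff_eq hp (by norm_num)).1 h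
        subst this
        norm_num at h4
      · exact hd h
    have h3 : Int.gcd (7 * (D : ℤ)) (p : ℤ) = Nat.gcd (7 * D) p := by
      have := Int.gcd_natCast_natCast (7 * D) p
      push_cast at this
      exact this
    rw [h3]
    exact ((Nat.coprime_comm.1 ((hp.coprime_iff_not_dvd).2 h7)))

/-- uniqueness of the continuation -/
theorem not_vanishes {D : ℕ} (h : AnalyticRankZero D) : ¬ Vanishes D := by
  rintro ⟨Λ, h1, h2, h3⟩
  obtain ⟨M, g1, g2, g3⟩ := h
  have hL : AnalyticOnNhd ℂ Λ Set.univ := h1.differentiableOn.analyticOnNhd isOpen_univ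
  have hM : AnalyticOnNhd ℂ M Set.univ := g1.differentiableOn.analyticOnNhd isOpen_univ
  have hev : Λ =ᶠ[𝓝 (3 : ℂ)] M := by
    have ho : {s : ℂ | 2 < s.re} ∈ 𝓝 (3 : ℂ) :=
      (isOpen_lt continuous_const Complex.continuous_re).mem_nhds (by
        show (2 : ℝ) < (3 : ℂ).re
        norm_num)
    filter_upwards [ho] with s hs
    rw [h2 s hs, g2 s hs]
  have := hL.eq_of_eventuallyEq hM hev
  rw [this] at h3
  exact g3 h3

theorem vanishes_iff {D : ℕ} (hD : Family D) : Vanishes D ↔ ¬ AnalyticRankZero D := by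
  refine ⟨fun h h' => not_vanishes h' h, fun h => ?_⟩
  obtain ⟨-, -, -, -, -, -, Λ, h1, h2, -⟩ :=
    Pool.Agent.Results.MP_4a9ea6_nt.TwoPartTwistsX49.result.1 D hD
  refine ⟨Λ, h1, h2, ?_⟩
  by_contra h3
  exact h ⟨Λ, h1, h2, h3⟩

theorem beta_eq {n : ℕ} (A : Matrix (Fin n) (Fin n) (ZMod 2)) :
    beta A = (diagonalLaw A 0 + borderLaw A 0) / 2 := by
  unfold beta diagonalLaw borderLaw
  have h1 : ∀ (m : ℕ) (B : Matrix (Fin m) (Fin m) (ZMod 2)), B.det ≠ 0 ↔ B.rank + 0 = m := by
    intro m B
    rw [← cor_zero_iff]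
    unfold Pool.Agent.U687.Q2.cor
    have := B.rank_le_card_height
    rw [Fintype.card_fin] at this
    omega
  rw [Nat.card_congr (Equiv.subtypeEquivRight fun v => h1 n (A + diagonal v)),
    Nat.card_congr (Equiv.subtypeEquivRight
      fun x : (Fin n → ZMod 2) × ZMod 2 => h1 (n + 1) (bordered (A + diagonal x.1) x.2 x.1))]

theorem beta_zero (A : Matrix (Fin 0) (Fin 0) (ZMod 2)) : beta A = 3 / 4 := by
  unfold beta
  have h1 : Nat.card {v : Fin 0 → ZMod 2 // (A + diagonal v).det ≠ 0} = 1 := by
    rw [Nat.card_congr (Equiv.subtypeUnivEquiv fun v => by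
      rw [Matrix.det_fin_zero]
      exact one_ne_zero)]
    exact Nat.card_unique
  have h2 : Nat.card {x : (Fin 0 → ZMod 2) × ZMod 2 //
      (bordered (A + diagonal x.1) x.2 x.1).det ≠ 0} = 1 := by
    rw [Nat.card_eq_one_iff_unique]
    have hd : ∀ x : (Fin 0 → ZMod 2) × ZMod 2,
        (bordered (A + diagonal x.1) x.2 x.1).det = x.2 := fun x => by
      rw [Matrix.det_fin_one]
      rfl
    have hz : ∀ d : ZMod 2, d ≠ 0 → d = 1 := by decide
    refine ⟨⟨fun x y => Subtype.ext (Prod.ext (Subsingleton.elim _ _) ?_)⟩,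
      ⟨⟨(default, 1), by
        rw [hd]
        exact one_ne_zero⟩⟩⟩
    have hx := x.2
    have hy := y.2
    rw [hd] at hx hy
    rw [hz _ hx, hz _ hy]
  rw [h1, h2]
  norm_num

theorem card_two : ∀ a : ZMod 2,
    Fintype.card {y : ZMod 2 × ZMod 2 // y.2 * (a + y.1) - y.1 * y.1 ≠ 0} =
      if a = 0 then 1 else 3 := by
  decide

theorem beta_one (A : Matrix (Fin 1) (Fin 1) (ZMod 2)) :
    beta A = if A 0 0 = 0 then 3 / 8 else 5 / 8 := by
  unfold beta
  have h1 : Nat.card {v : Fin 1 → ZMod 2 // (A + diagonal v).det ≠ 0} = 1 := by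
    rw [Nat.card_eq_one_iff_unique]
    have hd : ∀ v : Fin 1 → ZMod 2, (A + diagonal v).det = A 0 0 + v 0 := fun v => by
      rw [Matrix.det_fin_one, Matrix.add_apply, Matrix.diagonal_apply_eq]
    have hz : ∀ a d : ZMod 2, a + d ≠ 0 → d = a + 1 := by decide
    have hz' : ∀ a : ZMod 2, a + (a + 1) ≠ 0 := by decide
    refine ⟨⟨fun x y => Subtype.ext (funext fun i => ?_)⟩, ⟨⟨fun _ => A 0 0 + 1, by
        rw [hd]
        exact hz' _⟩⟩⟩
    have hx := x.2
    have hy := y.2
    rw [hd] at hx hy
    rw [Subsingleton.elim i 0, hz _ _ hx, hz _ _ hy]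
  have h2 : Nat.card {x : (Fin 1 → ZMod 2) × ZMod 2 //
      (bordered (A + diagonal x.1) x.2 x.1).det ≠ 0} = if A 0 0 = 0 then 1 else 3 := by
    rw [← card_two, ← Nat.card_eq_fintype_card]
    refine Nat.card_congr (Equiv.subtypeEquiv
      ((Equiv.funUnique (Fin 1) (ZMod 2)).prodCongr (Equiv.refl _)) fun x => ?_)
    rw [Matrix.det_fin_two]
    rfl
  rw [h1, h2]
  split_ifs <;> norm_num

theorem good_nonneg (D : ℕ) : 0 ≤ good D := by
  unfold good
  split_ifs
  · exact zero_le_one
  · exact le_rfl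

/-- the count -/
theorem count (D X : ℕ) : (V D X : ℝ) ≤
    (1 - average .all D (fun l => good (D * l)) X) * total D X := by
  set N : ℕ := ((Finset.Icc 1 X).filter fun l => l.Prime ∧ Is .all l).card with hN
  set S : ℝ := ∑ l ∈ (Finset.Icc 1 X).filter (fun l => l.Prime ∧ Is .all l ∧ ¬ l ∣ D), good (D * l)
    with hS
  have hS0 : 0 ≤ S := Finset.sum_nonneg fun l _ => good_nonneg _
  have hF : (Finset.Icc 1 X).filter (fun l => l.Prime ∧ Is .all l ∧ ¬ l ∣ D) =
      (Finset.Icc 1 X).filter fun p => SignPlus D p := by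
    refine Finset.filter_congr fun p _ => ?_
    rw [sign_iff]
    rfl
  have hle : (total D X : ℝ) ≤ N := by
    unfold total
    rw [hN, ← hF]
    exact_mod_cast Finset.card_le_card fun p hp => by
      rw [Finset.mem_filter] at hp ⊢
      exact ⟨hp.1, hp.2.1, hp.2.2.1⟩
  have hV : (V D X : ℝ) + S ≤ total D X := by
    have e1 : (V D X : ℝ) = ∑ p ∈ (Finset.Icc 1 X).filter (fun p => SignPlus D p),
        (if Vanishes (D * p) then (1 : ℝ) else 0) := by
      unfold V
      rw [Finset.sum_ite, Finset.sum_const_zero, add_zero, Finset.sum_const, nsmul_eq_mul, mul_one,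
        Finset.filter_filter]
    have e2 : (total D X : ℝ) = ∑ p ∈ (Finset.Icc 1 X).filter (fun p => SignPlus D p), (1 : ℝ) := by
      unfold total
      rw [Finset.sum_const, nsmul_eq_mul, mul_one]
    rw [e1, e2, hS, hF, ← Finset.sum_add_distrib]
    refine Finset.sum_le_sum fun p _ => ?_
    by_cases hg : Good (D * p)
    · rw [if_neg (not_vanishes hg.1)]
      unfold good
      rw [if_pos hg, zero_add]
    · unfold good
      rw [if_neg hg, add_zero]
      split_ifs
      · exact le_rfl
      · exact zero_le_one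
  have hav : average .all D (fun l => good (D * l)) X = S / N := rfl
  rw [hav]
  rcases Nat.eq_zero_or_pos N with h0 | h0
  · rw [h0]
    rw [Nat.cast_zero, div_zero, sub_zero, one_mul]
    linarith
  · have hN0 : (0 : ℝ) < N := by exact_mod_cast h0
    have h1 : S / N * total D X ≤ S := by
      rw [div_mul_eq_mul_div, div_le_iff₀ hN0]
      exact mul_le_mul_of_nonneg_left hle hS0
    rw [sub_mul, one_mul]
    linarith

end proof

/-- **An upper bound for the number of the vanishing central values in the prime twists.** -/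
theorem result (D : ℕ) (hD : Squarefree D ∧ ∀ p ∈ D.primeFactors, p % 4 = 1) :
    (∀ p : ℕ, SignPlus D p ↔ p.Prime ∧ p % 4 = 1 ∧ ¬ p ∣ D) ∧
    (∀ p : ℕ, SignPlus D p → (Vanishes (D * p) ↔ ¬ AnalyticRankZero (D * p))) ∧
    (∃ P : Fin (splitPrimes D).card → ℕ, IsEnumeration D (splitPrimes D).card P) ∧
    ∀ (n : ℕ) (P : Fin n → ℕ), IsEnumeration D n P →
      (∀ δ : ℝ, 0 < δ → ∀ᶠ X : ℕ in atTop,
        (V D X : ℝ) ≤ (1 - beta (symbols D P) + δ) * total D X) ∧
      (1 / 2 : ℝ) ^ (n + 1) ≤ beta (symbols D P) ∧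
      (splitPrimes D = ∅ → beta (symbols D P) = 3 / 4) ∧
      ∀ q : ℕ, splitPrimes D = {q} → beta (symbols D P) =
        if nonfourth q + ∑ l ∈ D.primeFactors.erase q, nonsq q l = 0 then 3 / 8 else 5 / 8 := by
  obtain ⟨r1, r2, -⟩ := Pool.Agent.Results.MP_03e5d0_nt.IteratedPrimeTwistsX49.result
  refine ⟨fun p => sign_iff, fun p hp => vanishes_iff ?_, (r2 D hD).1, fun n P hP => ?_⟩
  · obtain ⟨h1, h2, h3⟩ := sign_iff.1 hp
    refine ⟨(Nat.squarefree_mul_iff.2 ⟨Nat.coprime_comm.1 ((h1.coprime_iff_not_dvd).2 h3), hD.1,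
      h1.squarefree⟩), fun q hq => ?_⟩
    rw [Nat.primeFactors_mul hD.1.ne_zero h1.ne_zero, Finset.mem_union, h1.primeFactors,
      Finset.mem_singleton] at hq
    rcases hq with hq | hq
    · exact hD.2 q hq
    · rw [hq]
      exact h2
  obtain ⟨⟨h1, h2⟩, -⟩ := r1 D n P (fun _ => .all) 0 hD hP
  have h3 : iterated (fun _ => Kind.all) good 1 D = beta (symbols D P) := by
    rw [h2, beta_eq]
    show (1 - (1 / 2 : ℝ)) * _ + (1 / 2 : ℝ) * _ = _
    ring
  have hn : (splitPrimes D).card = n := by
    rw [hP.2, Finset.card_image_of_injective _ hP.1, Finset.card_univ, Fintype.card_fin]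
  refine ⟨fun δ hδ => ?_, ?_, fun h => ?_, fun q hq => ?_⟩
  · have h4 : Tendsto (average .all D (fun l => good (D * l))) atTop
        (𝓝 (beta (symbols D P))) := by
      rw [← h3]
      exact h1
    have h5 := h4.eventually (lt_mem_nhds (show beta (symbols D P) - δ < beta (symbols D P) by linarith))
    filter_upwards [h5] with X hX
    refine (count D X).trans (mul_le_mul_of_nonneg_right ?_ (Nat.cast_nonneg _))
    linarith
  · have h4 := ((r2 D hD).2 (fun _ => .all) 0).1
    rw [hn, add_zero, zero_add, h3] at h4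
    exact h4
  · rw [h, Finset.card_empty] at hn
    subst hn
    exact beta_zero _
  · rw [hq, Finset.card_singleton] at hn
    subst hn
    have h0 : P 0 = q := by
      have : P 0 ∈ ({q} : Finset ℕ) := by
        rw [← hq, hP.2]
        exact Finset.mem_image_of_mem _ (Finset.mem_univ _)
      exact Finset.mem_singleton.1 this
    have h4 : symbols D P 0 0 = nonfourth q + ∑ l ∈ D.primeFactors.erase q, nonsq q l := by
      unfold symbols
      rw [Matrix.of_apply, if_pos rfl, h0]
    rw [beta_one, h4]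

end Pool.Agent.Results.MP_31f891_nt.PrimeTwistsX49
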